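import Pool.Agent.Y246.SX.W1
import Pool.Agent.Y670.SX.TAY
import Pool.Agent.Y739.SX.FA
import Pool.Agent.Y81.SX.T0
import Pool.Agent.Y429.SX.FB
import Pool.Agent.Y547.SX.Min
import Pool.Agent.Y448.SX.W2
import Pool.Agent.Y620.SX.CRA
import Pool.Agent.Y953.SX.Ort
import Pool.Agent.Y809.SX.UB0
import Pool.Agent.Y4.SX.UB
import Pool.Agent.Y604.SX.AS
import Pool.Agent.Y978.SX.EUL
import Pool.Agent.Y475.SX.SHP
import Pool.Agent.Y983.SX.EUT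
import Pool.Agent.Y781.SX.LB
import Pool.Agent.Y81.SX.AAP
import Pool.Agent.Y96.SX.ZM
import Pool.Agent.Y514.SX.ZE
import Pool.Agent.Y726.SX.TWC
import Pool.Agent.Y77.SX.CTW
import Pool.Agent.Y293.SX.TL2
import Pool.Agent.Y360.SX.F8
import Pool.Agent.Y780.SX.Blk
import Pool.Agent.Y812.SX.OMX
import Pool.Agent.Y76.SX.ARI
import Pool.Agent.Y369.SX.Ars
import Pool.Agent.Y901.SX.A1
import Pool.Agent.Y54.SX.A2
import Pool.Agent.Y852.SX.Loc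
import Pool.Agent.Y686.SX.Lsm
import Pool.Agent.Y969.SM.Win
import Pool.Agent.Y969.SM.Fin
import Pool.Agent.Y969.SM.Res
import Pool.Agent.V7H6.GP.Sm
import Pool.Agent.Y587.GP.V
import Pool.Agent.Y587.GP.Chi
import Pool.Agent.Y379.GP.Sp
import Pool.Agent.Y891.GP.AFE
import Pool.Agent.Y125.GP.LSW
import Pool.Agent.Y545.GP.CR
import Pool.Agent.TH384.N4_FM
import Pool.Agent.TH806.N4.Abs

set_option autoImplicit false

/-! Assembly of the project SX of the starting library (helper969): the fourth power of zeta times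
the squares at almost all shifts. -/

namespace Pool.Agent.V7H41.SX

open Finset Filter Topology MeasureTheory Complex
open Pool.Agent.Y969.SM
open Pool.Agent.H306R2.SM (om)
open Pool.Agent.H262R4.TM (Rng)

theorem main : S_MAIN ∧ S_REL ∧ S_AA := by
  have hV : Pool.Agent.Y969.GP.S_V := Pool.Agent.Y587.GP.t_V
  have hSP : Pool.Agent.Y969.GP.S_SP := Pool.Agent.Y379.GP.t_SP
  have hSM : Pool.Agent.Y969.GP.S_SM := Pool.Agent.V7H6.GP.t_SM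
  have hAFE : Pool.Agent.Y969.GP.S_AFE := Pool.Agent.Y891.GP.t_AFE hV Pool.Agent.Y587.GP.Chi.t_CHI
  have hLSW : Pool.Agent.Y969.GP.S_LSW := Pool.Agent.Y125.GP.t_LSW hSP
  have hCR : Pool.Agent.Y969.GP.S_CR := Pool.Agent.Y545.GP.t_CR hV
  have hFM : Pool.Agent.TH806.N4.P_FM := Pool.Agent.TH384.N4_FM.t_FM
  have hING : Pool.Agent.TH806.N4.P_ING := Pool.Agent.TH806.N4.a_ING
  obtain ⟨k₀, hk₀⟩ := Pool.Agent.Y739.SX.t_FA
  obtain ⟨k, hk⟩ : ∃ k, k = max k₀ 2 := ⟨_, rfl⟩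
  have hk1 : k₀ ≤ k := by rw [hk]; exact le_max_left _ _
  have hk2 : 2 ≤ k := by rw [hk]; exact le_max_right _ _
  have hFA : S_FA k := hk₀ k hk1
  have hFB : S_FB k := Pool.Agent.Y429.SX.t_FB Pool.Agent.Y360.SX.t_F8 k hk2
  have hORT : S_ORT := Pool.Agent.Y953.SX.t_ORT hSP
  have hCRA : S_CRA := Pool.Agent.Y620.SX.t_CRA hV
  have hARI : S_ARI := Pool.Agent.Y76.SX.t_ARI
  have hW2B : S_W2B := Pool.Agent.Y76.SX.t_W2B
  have hTWC : S_TWC := Pool.Agent.Y726.SX.t_TWC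
  have hUB : S_UB k := Pool.Agent.Y4.SX.t_UB k
    (Pool.Agent.Y809.SX.t_UB0 hTWC hFM Pool.Agent.Y369.SX.t_ARS k hk2) hFB
  have hAS : S_AS := Pool.Agent.Y604.SX.t_AS hTWC hFM hING Pool.Agent.Y901.SX.t_A1
    Pool.Agent.Y54.SX.t_A2 ⟨k, hk2, hFA⟩
  have hTL2 : S_TL2 k := Pool.Agent.Y293.SX.t_TL2 k hUB hORT hARI hFB
  have hT0 : S_T0 k := Pool.Agent.Y81.SX.T0.t_T0 k hUB hAS hFA hORT hARI hW2B hFB
  have hTAY : S_TAY k := Pool.Agent.Y670.SX.t_TAY k hCRA Pool.Agent.Y812.SX.t_OMX hORT hFA hFB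
  have hF5 : ∀ᶠ T : ℝ in atTop, ∀ κ : ℕ, Rng T κ →
      ∫ t in Set.Ioi (0:ℝ), om κ (κ / T) t * |F0 k T t| ≤ Real.log T ^ 5 ∧
      IntegrableOn (fun t => om κ (κ / T) t * |F0 k T t|) (Set.Ioi 0) := by
    obtain ⟨C, hC, h⟩ := hFA
    filter_upwards [h, Real.tendsto_log_atTop.eventually_ge_atTop C,
      Real.tendsto_log_atTop.eventually_ge_atTop 1] with T h h1 h2 κ hκ
    obtain ⟨_, b, _, _, e, _⟩ := h κ hκ
    refine ⟨e.trans ?_, b⟩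
    have h3 : 0 ≤ Real.log T ^ 4 := by positivity
    calc C * Real.log T ^ 4 ≤ Real.log T * Real.log T ^ 4 := by gcongr
      _ = Real.log T ^ 5 := by ring
  have hX4 : ∃ C : ℝ, 0 < C ∧ ∀ᶠ T : ℝ in atTop, ∀ κ : ℕ, Rng T κ →
      ∫ t in Set.Ioi (0:ℝ), om κ (κ / T) t * Xz t ^ 4 ≤ C * Real.log T ^ 4 := by
    obtain ⟨C, hC, h⟩ := hFA
    exact ⟨C, hC, h.mono fun T h κ hκ => (h κ hκ).2.2.2.2.2⟩
  have hMIN : S_MIN k := Pool.Agent.Y547.SX.t_MIN k Pool.Agent.Y780.SX.t_BLK hFB hF5 hLSW hCR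
  have hW1 : S_W1 k := Pool.Agent.Y246.SX.t_W1 k hFA hFB hSM
  have hW2 : S_W2 k := Pool.Agent.Y448.SX.t_W2 k hFB hF5 hAFE hSM
  have hCTW : S_CTW := Pool.Agent.Y77.SX.t_CTW
  have hWIN : S_WIN := t_WIN k hFB hW1 hW2 hMIN hTAY hTL2 hT0 hCTW hV
  have hSHP : S_SHP := Pool.Agent.Y475.SX.t_SHP hSM hCTW hX4
  have hLOC : S_LOC := Pool.Agent.Y852.SX.t_LOC
  have hEUT : S_EUT := Pool.Agent.Y983.SX.EUT.t_EUT Pool.Agent.Y686.SX.t_LSM
  have hEUL : S_EUL := Pool.Agent.Y978.SX.t_EUL hLOC hEUT hORT hARI hW2B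
  have hMAIN : S_MAIN := t_MAIN hWIN hSHP hEUL hCTW
  have hAA : S_AA := Pool.Agent.Y81.SX.AAP.t_AA hLOC
  have hREL : S_REL := t_REL hMAIN (Pool.Agent.Y781.SX.t_LB hLOC)
    (Pool.Agent.Y514.SX.t_ZE hAA Pool.Agent.Y96.SX.t_ZM)
  exact ⟨hMAIN, hREL, hAA⟩

end Pool.Agent.V7H41.SX
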